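import Pool.Agent.Helper82.RD.Defs

/-!
# Project RD (MP_86d903_lc): module ADS
-/

set_option autoImplicit false

open Finset MP86d903

namespace Pool.Agent.Helper82.RD

variable {ι V : Type} [DecidableEq ι] [Fintype ι] [Fintype V] [DecidableEq V]
  {vs ng : ι → Finset V} {q : ℕ}

theorem mADS (hGI : GI vs) {A J e X : Finset V} (hCL : CL vs q A) (hJ : UA vs A J)
    (hJS : SPa vs q (A ∪ J)) (he : IsAt vs A e) (heJ : Disjoint e J) (heX : Disjoint e X)
    (hX : Cat vs q (A ∪ J) X) (hJq : 3 * J.card + 10 ≤ q) : SPa vs q (A ∪ (J ∪ e)) := by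
  classical
  intro S hS hSq hSZ'
  have hSZ : ∀ c ∈ S, ¬ vs c ⊆ A ∪ J := fun c hc h => hSZ' c hc (h.trans (by
    rw [← union_assoc]
    exact subset_union_left))
  have hSA : ∀ c ∈ S, ¬ vs c ⊆ A := fun c hc h => hSZ c hc (h.trans subset_union_left)
  have heA : Disjoint e A := by
    rcases he with ⟨x, hx, rfl, -⟩ | ⟨c, -, rfl⟩
    · exact disjoint_singleton_left.2 hx
    · exact sdiff_disjoint
  have heZ : Disjoint e (A ∪ J) := disjoint_union_right.2 ⟨heA, heJ⟩
  have hadd := hGI.add (A ∪ J) e heZ S
  rw [union_assoc] at hadd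
  have hlow := hGI.low e S
  have hS1 := hJS S hS hSq hSZ
  have hn0 : (0 : ℤ) ≤ ((S.biUnion vs ∩ e).card : ℤ) := Int.natCast_nonneg _
  rcases he with ⟨x, hx, rfl, -⟩ | ⟨d, hd2, hde⟩
  · by_cases hxS : x ∈ S.biUnion vs
    · have h1 : ((S.biUnion vs ∩ {x}).card : ℤ) = 1 := by
        have : S.biUnion vs ∩ {x} = {x} := inter_singleton_of_mem hxS
        rw [this]
        simp
      have h2 : 2 ≤ gg vs (A ∪ J) S := by
        by_contra hcon
        have h3 := hX S hS hSq hSZ (by omega)
        exact (disjoint_singleton_left.1 heX) (h3 hxS)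
      omega
    · have h1 : ((S.biUnion vs ∩ {x}).card : ℤ) = 0 := by
        have : S.biUnion vs ∩ {x} = ∅ := inter_singleton_of_notMem hxS
        rw [this]
        simp
      omega
  · have hec : e.card = 2 := by rw [hde]; exact hd2
    have hdZ : vs d \ (A ∪ J) = e := by
      ext y
      simp only [mem_sdiff, mem_union, not_or]
      constructor
      · rintro ⟨h1, h2, -⟩
        rw [hde]
        exact mem_sdiff.2 ⟨h1, h2⟩
      · intro hy
        refine ⟨?_, Finset.disjoint_left.1 heA hy, Finset.disjoint_left.1 heJ hy⟩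
        rw [hde] at hy
        exact (mem_sdiff.1 hy).1
    have hdn : ¬ vs d ⊆ A ∪ J := by
      intro h
      have : vs d \ (A ∪ J) = ∅ := sdiff_eq_empty_iff_subset.2 h
      rw [hdZ] at this
      rw [this] at hec
      simp at hec
    have hdS : d ∉ S := by
      intro h
      apply hSZ' d h
      intro y hy
      by_cases hyA : y ∈ A
      · exact mem_union_left _ hyA
      · refine mem_union_right _ (mem_union_right _ ?_)
        rw [hde]
        exact mem_sdiff.2 ⟨hy, hyA⟩
    have hcard : ((S.biUnion vs ∩ e).card : ℤ) + ((e \ S.biUnion vs).card : ℤ) = 2 := by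
      have h1 : (e ∩ S.biUnion vs).card + (e \ S.biUnion vs).card = e.card :=
        card_inter_add_card_sdiff e (S.biUnion vs)
      rw [inter_comm, hec] at h1
      exact_mod_cast h1
    by_cases hq1 : S.card + 1 ≤ q
    · have huni := hGI.uni (A ∪ J) S {d} (disjoint_singleton_right.2 hdS)
      rw [singleton_biUnion, sum_singleton, hdZ, hec] at huni
      have h1 : vs d \ (A ∪ J ∪ S.biUnion vs) = e \ S.biUnion vs := by
        rw [← hdZ]
        ext y
        simp only [mem_sdiff, mem_union, not_or, and_assoc]
      rw [h1] at huni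
      have h2 : 2 ≤ gg vs (A ∪ J) (S ∪ {d}) := by
        by_contra hcon
        have h3 := hX (S ∪ {d}) (hS.mono subset_union_left)
          ((card_union_le _ _).trans (by rw [card_singleton]; exact hq1))
          (by
            intro c hc
            rcases mem_union.1 hc with h | h
            · exact hSZ c h
            · rw [mem_singleton.1 h]
              exact hdn) (by omega)
        have h4 : e ⊆ X := by
          intro y hy
          apply h3
          rw [mem_biUnion]
          refine ⟨d, mem_union_right _ (mem_singleton_self d), ?_⟩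
          rw [hde] at hy
          exact (mem_sdiff.1 hy).1
        have h5 : e = ∅ := by
          have := heX
          rw [disjoint_of_le_iff_left_eq_bot h4] at this
          exact this
        rw [h5] at hec
        simp at hec
      push_cast at huni
      have h3 : (0 : ℤ) ≤ ∑ c ∈ S, ((vs c ∩ e).card : ℤ) :=
        Finset.sum_nonneg fun c _ => Int.natCast_nonneg _
      by_cases h4 : (1 : ℤ) ≤ ∑ c ∈ S, ((vs c ∩ e).card : ℤ)
      · omega
      · omega
    · have hJe : Disjoint (J ∪ e) A := disjoint_union_left.2 ⟨hJ.disj, heA⟩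
      have hadd2 := hGI.add A (J ∪ e) hJe S
      have hlow2 := hGI.low (J ∪ e) S
      have h3 := hCL.gg3 S hS hSq hSA
      have h4 : ((S.biUnion vs ∩ (J ∪ e)).card : ℤ) ≤ J.card + 2 := by
        have h5 : (S.biUnion vs ∩ (J ∪ e)).card ≤ J.card + e.card :=
          (card_le_card inter_subset_right).trans (card_union_le _ _)
        rw [hec] at h5
        exact_mod_cast h5
      omega

end Pool.Agent.Helper82.RD
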