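import Pool.Agent.Helper82.RD.Defs

/-!
# Project RD (MP_86d903_lc): module BAD
-/

set_option autoImplicit false

open Finset MP86d903

namespace Pool.Agent.Helper82.RD

variable {ι V : Type} [DecidableEq ι] [Fintype ι] [Fintype V] [DecidableEq V]
  {vs ng : ι → Finset V} {q : ℕ}

omit [Fintype ι] [Fintype V] in
private theorem mBAD_N (Z : Finset V) (U S : Finset ι) :
    ((U ∪ S).biUnion vs \ Z).card = (U.biUnion vs \ Z).card +
      (S.biUnion vs \ (Z ∪ U.biUnion vs)).card := by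
  rw [← card_union_of_disjoint]
  · congr 1
    ext x
    simp only [mem_sdiff, mem_union, mem_biUnion, or_and_right, exists_or, not_or]
    by_cases h1 : ∃ c ∈ U, x ∈ vs c
    · by_cases h2 : x ∈ Z <;> simp [h1, h2]
    · by_cases h2 : x ∈ Z <;> simp [h1, h2]
  · rw [Finset.disjoint_left]
    intro x hx hx'
    simp only [mem_sdiff, mem_union, not_or] at hx hx'
    exact hx'.2.2 hx.1

omit [Fintype V] in
private theorem mBAD_C (X A J : Finset V) (hJ : Disjoint J A) :
    (X \ A).card = (X \ (A ∪ J)).card + (X ∩ J).card := by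
  rw [← card_union_of_disjoint]
  · congr 1
    ext x
    simp only [mem_sdiff, mem_union, mem_inter, not_or]
    constructor
    · rintro ⟨h1, h2⟩
      by_cases h : x ∈ J
      · exact Or.inr ⟨h1, h⟩
      · exact Or.inl ⟨h1, h2, h⟩
    · rintro (⟨h1, h2, -⟩ | ⟨h1, h2⟩)
      · exact ⟨h1, h2⟩
      · exact ⟨h1, fun h => (Finset.disjoint_left.1 hJ) h2 h⟩
  · rw [Finset.disjoint_left]
    intro x hx hx'
    simp only [mem_sdiff, mem_union, mem_inter, not_or] at hx hx'
    exact hx.2.2 hx'.2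

theorem mBAD (hGI : GI vs) (h3 : ∀ c, (vs c).card = 3) {A J : Finset V} (hCL : CL vs q A)
    (hJ : Disjoint J A) (hJq : 9 * J.card + 3 ≤ q) :
    ∃ X : Finset V, X.card ≤ 18 * J.card ∧ ∀ J' ⊆ J, SPa vs q (A ∪ J') → Cat vs q (A ∪ J') X := by
  classical
  -- the weight
  set om : Finset ι → ℤ := fun U => 2 * ((U.biUnion vs \ (A ∪ J)).card : ℤ) -
    ∑ c ∈ U, ((vs c \ A).card : ℤ) with hom
  have hom1 : ∀ U, om U = gg vs A U - 2 * ((U.biUnion vs ∩ J).card : ℤ) := by
    intro U
    have h1 := mBAD_C (U.biUnion vs) A J hJ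
    simp only [hom, gg]
    rw [h1]
    push_cast
    ring
  set good : Finset ι → Prop := fun U => U.card ≤ q ∧ (∀ c ∈ U, ¬ vs c ⊆ A) ∧ om U ≤ 0 with hgood
  have hne : ((univ : Finset (Finset ι)).filter good).Nonempty := by
    refine ⟨∅, ?_⟩
    simp [hgood, hom]
  obtain ⟨U, hU, hmax⟩ := Finset.exists_max_image _ Finset.card hne
  rw [mem_filter] at hU
  obtain ⟨-, hUq, hUA, hU0⟩ := hU
  have hU6 : U.card ≤ 6 * J.card := by
    rcases U.eq_empty_or_nonempty with h | h
    · simp [h]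
    · have h1 := hCL.gg3 U h hUq hUA
      have h2 : ((U.biUnion vs ∩ J).card : ℤ) ≤ J.card := by
        exact_mod_cast card_le_card inter_subset_right
      rw [hom1] at hU0
      have h3 : (U.card : ℤ) ≤ 6 * J.card := by linarith
      exact_mod_cast h3
  refine ⟨U.biUnion vs, ?_, ?_⟩
  · calc (U.biUnion vs).card ≤ ∑ c ∈ U, (vs c).card := card_biUnion_le
      _ = U.card * 3 := by simp [h3]
      _ ≤ 18 * J.card := by omega
  intro J' hJ' hSP S hS hSq hSA hS1
  have hJA : Disjoint J' A := disjoint_of_subset_left hJ' hJ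
  have hSA' : ∀ c ∈ S, ¬ vs c ⊆ A := fun c hc h =>
    hSA c hc (h.trans subset_union_left)
  have e1 := hGI.add A J' hJA S
  have e2 := hGI.low J' S
  have e3 : ((S.biUnion vs ∩ J').card : ℤ) ≤ J.card := by
    exact_mod_cast (card_le_card inter_subset_right).trans (card_le_card hJ')
  have e4 := hCL.gg3 S hS hSq hSA'
  have hS3 : (S.card : ℤ) ≤ 3 * J.card + 2 := by linarith
  have hS3' : S.card ≤ 3 * J.card + 2 := by exact_mod_cast hS3
  have hUS : (U ∪ S).card ≤ q := by
    have := card_union_le U S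
    omega
  -- the computation
  have f1 := mBAD_N (vs := vs) (A ∪ J) U (S \ U)
  have f2 := mBAD_N (vs := vs) (A ∪ J') (S ∩ U) (S \ U)
  have f3 : (S ∩ U) ∪ (S \ U) = S := by
    ext c
    simp only [mem_union, mem_inter, mem_sdiff]
    tauto
  have f4 : U ∪ S \ U = U ∪ S := by
    ext c
    simp only [mem_union, mem_sdiff]
    tauto
  rw [f4] at f1
  rw [f3] at f2
  have f5 : ((S \ U).biUnion vs \ (A ∪ J ∪ U.biUnion vs)).card ≤
      ((S \ U).biUnion vs \ (A ∪ J' ∪ (S ∩ U).biUnion vs)).card := by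
    apply card_le_card
    apply sdiff_subset_sdiff (Subset.refl _)
    apply union_subset_union
    · exact union_subset_union (Subset.refl _) hJ'
    · exact biUnion_subset_biUnion_of_subset_left _ inter_subset_right
  have f6 : ∑ c ∈ S \ U, ((vs c \ A).card : ℤ) = ∑ c ∈ S \ U, ((vs c \ (A ∪ J')).card : ℤ) +
      ∑ c ∈ S \ U, ((vs c ∩ J').card : ℤ) := by
    rw [← Finset.sum_add_distrib]
    apply Finset.sum_congr rfl
    intro c _
    exact_mod_cast mBAD_C (vs c) A J' hJA
  have hd : Disjoint (S ∩ U) (S \ U) := by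
    rw [Finset.disjoint_left]
    intro c hc hc'
    exact (mem_sdiff.1 hc').2 (mem_inter.1 hc).2
  have hd' : Disjoint U (S \ U) := by
    rw [Finset.disjoint_left]
    intro c hc hc'
    exact (mem_sdiff.1 hc').2 hc
  have f7 : ∑ c ∈ S, ((vs c \ (A ∪ J')).card : ℤ) = ∑ c ∈ S ∩ U, ((vs c \ (A ∪ J')).card : ℤ) +
      ∑ c ∈ S \ U, ((vs c \ (A ∪ J')).card : ℤ) := by
    rw [← Finset.sum_union hd, f3]
  have f8 : ∑ c ∈ U ∪ S, ((vs c \ A).card : ℤ) = ∑ c ∈ U, ((vs c \ A).card : ℤ) +
      ∑ c ∈ S \ U, ((vs c \ A).card : ℤ) := by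
    rw [← Finset.sum_union hd', f4]
  have key : om (U ∪ S) ≤ om U + gg vs (A ∪ J') S - gg vs (A ∪ J') (S ∩ U) -
      ∑ c ∈ S \ U, ((vs c ∩ J').card : ℤ) := by
    have f1' : (((U ∪ S).biUnion vs \ (A ∪ J)).card : ℤ) = (U.biUnion vs \ (A ∪ J)).card +
      ((S \ U).biUnion vs \ (A ∪ J ∪ U.biUnion vs)).card := by exact_mod_cast f1
    have f2' : ((S.biUnion vs \ (A ∪ J')).card : ℤ) = ((S ∩ U).biUnion vs \ (A ∪ J')).card +
      ((S \ U).biUnion vs \ (A ∪ J' ∪ (S ∩ U).biUnion vs)).card := by exact_mod_cast f2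
    have f5' : (((S \ U).biUnion vs \ (A ∪ J ∪ U.biUnion vs)).card : ℤ) ≤
      ((S \ U).biUnion vs \ (A ∪ J' ∪ (S ∩ U).biUnion vs)).card := by exact_mod_cast f5
    simp only [hom, gg]
    rw [f1', f2', f8, f7, f6]
    linarith
  have hfin : om (U ∪ S) ≤ 0 := by
    rcases (S ∩ U).eq_empty_or_nonempty with h | h
    · have h0 : S \ U = S := by
        ext c
        simp only [mem_sdiff, and_iff_left_iff_imp]
        intro hc hc'
        have : c ∈ S ∩ U := mem_inter.2 ⟨hc, hc'⟩
        rw [h] at this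
        simp at this
      have h1 : gg vs (A ∪ J') (S ∩ U) = 0 := by
        rw [h]
        simp [gg]
      rw [h0, h1] at key
      have h2 := hCL.gg2 S hS hSq hSA'
      have h4 : (1 : ℤ) ≤ ∑ c ∈ S, ((vs c ∩ J').card : ℤ) := by
        by_contra hcon
        have h5 : (0 : ℤ) ≤ ((S.biUnion vs ∩ J').card : ℤ) := Int.natCast_nonneg _
        have h6 : ∑ c ∈ S, ((vs c ∩ J').card : ℤ) ≤ 0 := by omega
        linarith
      linarith
    · have h1 : 1 ≤ gg vs (A ∪ J') (S ∩ U) := by
        apply hSP _ h ((card_le_card inter_subset_left).trans hSq)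
        intro c hc
        exact hSA c (mem_inter.1 hc).1
      have h2 : (0 : ℤ) ≤ ∑ c ∈ S \ U, ((vs c ∩ J').card : ℤ) :=
        Finset.sum_nonneg fun c _ => Int.natCast_nonneg _
      linarith
  have hle := hmax (U ∪ S) (by
    rw [mem_filter]
    refine ⟨mem_univ _, hUS, ?_, hfin⟩
    intro c hc
    rcases mem_union.1 hc with h | h
    · exact hUA c h
    · exact hSA' c h)
  have heq : U = U ∪ S := Finset.eq_of_subset_of_card_le subset_union_left hle
  have hSU : S ⊆ U := by
    rw [heq]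
    exact subset_union_right
  exact biUnion_subset_biUnion_of_subset_left _ hSU

end Pool.Agent.Helper82.RD
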