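import Pool.Agent.Helper82.RD.Defs

/-!
# Project RD (MP_86d903_lc): module GRS
-/

set_option autoImplicit false

open Finset MP86d903

namespace Pool.Agent.Helper82.RD

variable {ι V : Type} [DecidableEq ι] [Fintype ι] [Fintype V] [DecidableEq V]
  {vs ng : ι → Finset V} {q : ℕ}

omit [DecidableEq ι] [Fintype ι] [Fintype V] in
private theorem mGRS_two {A e : Finset V} (he : IsAt vs A e) : e.card ≤ 2 := by
  rcases he with ⟨x, -, rfl, -⟩ | ⟨c, hc, rfl⟩
  · simp
  · exact hc.le

theorem mGRS (h3 : ∀ c, (vs c).card = 3) {A : Finset V} (hCL : CL vs q A) (hAP : AP vs A)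
    (hBAD : ∀ J : Finset V, Disjoint J A → 9 * J.card + 3 ≤ q →
      ∃ X : Finset V, X.card ≤ 18 * J.card ∧ ∀ J' ⊆ J, SPa vs q (A ∪ J') → Cat vs q (A ∪ J') X)
    (hADU : ∀ J e : Finset V, UA vs A J → IsAt vs A e →
      (∀ c, Disjoint (vs c) J ∨ Disjoint (vs c) e) → UA vs A (J ∪ e))
    (hADS : ∀ J e X : Finset V, UA vs A J → SPa vs q (A ∪ J) → IsAt vs A e → Disjoint e J →
      Disjoint e X → Cat vs q (A ∪ J) X → 3 * J.card + 10 ≤ q → SPa vs q (A ∪ (J ∪ e)))
    (hCNT : (∀ Y : Finset V,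
        (univ.filter (fun x => x ∉ A ∧ ¬ Disjoint (att vs A x) Y)).card ≤ 2 * Y.card) ∧
      ∀ (D : ℕ) (J : Finset V), (∀ x ∈ J, (univ.filter (fun c => x ∈ vs c)).card ≤ D) →
        ((univ.filter (fun c => ¬ Disjoint (vs c) J)).biUnion vs).card ≤ 3 * (D * J.card))
    {D r τ : ℕ} (hD : ∀ x, x ∉ A → (univ.filter (fun c => x ∈ vs c)).card ≤ D)
    (hq : 18 * r + 10 ≤ q) (hτ : (76 + 12 * D) * r ≤ τ) {E : Finset (Finset V)}
    (hE : GF vs q A E) (hEr : E.card + 1 ≤ r) {b : V → ZMod 2} (hb : τ < (OO vs A b).card) :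
    ∃ x, x ∉ A ∧ bs vs A b x ≠ 0 ∧ att vs A x ∉ E ∧ GF vs q A (insert (att vs A x) E) := by
  classical
  set J : Finset V := E.biUnion id with hJdef
  have hJA : Disjoint J A := (hE.sub E (Subset.refl _)).1.disj
  have hJc : J.card ≤ E.card * 2 :=
    card_biUnion_le.trans (Finset.sum_le_card_nsmul _ _ _ fun e he => mGRS_two (hE.ats e he))
  have hJr : J.card ≤ 2 * (r - 1) := by omega
  obtain ⟨X, hX, hXc⟩ := hBAD J hJA (by omega)
  set Y₂ : Finset V := (univ.filter (fun c => ¬ Disjoint (vs c) J)).biUnion vs with hY₂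
  have hY₂c : Y₂.card ≤ 3 * (D * J.card) :=
    hCNT.2 D J fun x hx => hD x (Finset.disjoint_left.1 hJA hx)
  set Y : Finset V := J ∪ X ∪ Y₂ with hY
  have hYc : Y.card ≤ (19 + 3 * D) * J.card := by
    calc Y.card ≤ (J ∪ X).card + Y₂.card := card_union_le _ _
      _ ≤ J.card + X.card + Y₂.card := Nat.add_le_add_right (card_union_le _ _) _
      _ ≤ J.card + 18 * J.card + 3 * (D * J.card) := by omega
      _ = (19 + 3 * D) * J.card := by ring
  have hlt : (univ.filter (fun x => x ∉ A ∧ ¬ Disjoint (att vs A x) Y)).card <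
      (OO vs A b).card := by
    refine lt_of_le_of_lt ?_ hb
    refine (hCNT.1 Y).trans (le_trans ?_ hτ)
    calc 2 * Y.card ≤ 2 * ((19 + 3 * D) * J.card) := Nat.mul_le_mul_left _ hYc
      _ ≤ 2 * ((19 + 3 * D) * (2 * r)) :=
          Nat.mul_le_mul_left _ (Nat.mul_le_mul_left _ (by omega))
      _ = (76 + 12 * D) * r := by ring
  obtain ⟨x, hxO, hxN⟩ := exists_mem_notMem_of_card_lt_card hlt
  unfold OO at hxO
  rw [mem_filter] at hxO
  obtain ⟨-, hxA, hxb⟩ := hxO
  have hdis : Disjoint (att vs A x) Y := by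
    by_contra hcon
    exact hxN (mem_filter.2 ⟨mem_univ _, hxA, hcon⟩)
  set e : Finset V := att vs A x with hedef
  have hxe : x ∈ e := hAP.mem x hxA
  have heA : IsAt vs A e := hAP.isa x hxA
  have hJY : J ⊆ Y := subset_union_left.trans subset_union_left
  have hXY : X ⊆ Y := subset_union_right.trans subset_union_left
  have hYY : Y₂ ⊆ Y := subset_union_right
  have heE : e ∉ E := by
    intro h
    have h1 : x ∈ J := mem_biUnion.2 ⟨e, h, hxe⟩
    exact Finset.disjoint_left.1 hdis hxe (hJY h1)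
  refine ⟨x, hxA, hxb, heE, ⟨?_, ?_⟩⟩
  · intro e' he'
    rcases mem_insert.1 he' with h | h
    · rw [h]
      exact heA
    · exact hE.ats e' h
  · intro I hI
    by_cases heI : e ∈ I
    · have hI' : I.erase e ⊆ E := subset_insert_iff.1 hI
      set J' : Finset V := (I.erase e).biUnion id with hJ'
      have hIJ : I.biUnion id = J' ∪ e := by
        conv_lhs => rw [← insert_erase heI]
        rw [biUnion_insert, union_comm]
        rfl
      have hJ'J : J' ⊆ J := biUnion_subset_biUnion_of_subset_left _ hI'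
      obtain ⟨hU, hS⟩ := hE.sub _ hI'
      rw [← hJ'] at hU hS
      have hJ'c : J'.card ≤ J.card := card_le_card hJ'J
      rw [hIJ]
      constructor
      · apply hADU J' e hU heA
        intro c
        by_cases hc : Disjoint (vs c) J
        · exact Or.inl (disjoint_of_subset_right hJ'J hc)
        · right
          have h1 : vs c ⊆ Y₂ := by
            intro y hy
            exact mem_biUnion.2 ⟨c, mem_filter.2 ⟨mem_univ _, hc⟩, hy⟩
          exact (disjoint_of_subset_right (h1.trans hYY) hdis).symm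
      · exact hADS J' e X hU hS heA (disjoint_of_subset_right (hJ'J.trans hJY) hdis)
          (disjoint_of_subset_right hXY hdis) (hXc J' hJ'J hS) (by omega)
    · have hI' : I ⊆ E := (subset_insert_iff_of_notMem heI).1 hI
      exact hE.sub I hI'

end Pool.Agent.Helper82.RD
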